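import Pool.Agent.Helper64.RF.GoalsL

/-!
Packet RIC of project RF (MP_c98eff_gt).
-/

open Quaternion

namespace Pool.Agent.Helper40.RF

open Pool.Agent.Helper64.RF
open Pool.Agent.Helper47.RF (eps)

variable {g : ℍ[ℝ] → W →L[ℝ] W →L[ℝ] ℝ} {G : ℍ[ℝ] → W →L[ℝ] W →L[ℝ] W} {x : ℍ[ℝ]}

theorem Rm_add1 (u u' v z : W) : Rm G x (u + u') v z = Rm G x u v z + Rm G x u' v z := by
  simp only [Rm, Ed_add, map_add, ContinuousLinearMap.add_apply, br_add_left]
  abel

theorem Rm_smul1 (r : ℝ) (u v z : W) : Rm G x (r • u) v z = r • Rm G x u v z := by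
  simp only [Rm, Ed_smul, map_smul, ContinuousLinearMap.smul_apply, br_smul_left, smul_sub,
    smul_add]

theorem Rm_add2 (u v v' z : W) : Rm G x u (v + v') z = Rm G x u v z + Rm G x u v' z := by
  simp only [Rm, Ed_add, map_add, ContinuousLinearMap.add_apply, br_add_right]
  abel

theorem Rm_smul2 (r : ℝ) (u v z : W) : Rm G x u (r • v) z = r • Rm G x u v z := by
  simp only [Rm, Ed_smul, map_smul, ContinuousLinearMap.smul_apply, br_smul_right, smul_sub,
    smul_add]

theorem Rm_add3 (u v z z' : W) : Rm G x u v (z + z') = Rm G x u v z + Rm G x u v z' := by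
  simp only [Rm, map_add]
  abel

theorem Rm_smul3 (r : ℝ) (u v z : W) : Rm G x u v (r • z) = r • Rm G x u v z := by
  simp only [Rm, map_smul, smul_sub, smul_add]

/-- expansion in an orthonormal triple -/
theorem expand {A : Fin 3 → W} (hA : Orth g x A) (w : W) :
    w = g x w (A 0) • A 0 + g x w (A 1) • A 1 + g x w (A 2) • A 2 := by
  have hli : LinearIndependent ℝ A := by
    rw [Fintype.linearIndependent_iff]
    intro c hc i
    have h1 : g x (∑ j, c j • A j) (A i) = 0 := by rw [hc]; simp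
    rw [map_sum] at h1
    simp only [ContinuousLinearMap.sum_apply, map_smul, ContinuousLinearMap.smul_apply,
      smul_eq_mul, hA _ i] at h1
    simpa using h1
  have hcard : Fintype.card (Fin 3) = Module.finrank ℝ W := by simp
  have hspan := hli.span_eq_top_of_card_eq_finrank hcard
  have hw : w ∈ Submodule.span ℝ (Set.range A) := by rw [hspan]; trivial
  obtain ⟨c, hc⟩ := (Submodule.mem_span_range_iff_exists_fun ℝ).mp hw
  have h2 : ∀ i, g x w (A i) = c i := by
    intro i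
    rw [← hc, map_sum]
    simp only [ContinuousLinearMap.sum_apply, map_smul, ContinuousLinearMap.smul_apply,
      smul_eq_mul, hA _ i]
    simp
  rw [h2, h2, h2, ← hc, Fin.sum_univ_three]

theorem alg (N : Matrix (Fin 3) (Fin 3) ℝ) (lam mu w0 w1 w2 : ℝ)
    (h : ∀ i j, |N i j - (if i = j then lam else 0)| ≤ mu) :
    (2 * lam - 6 * mu) * (w0 ^ 2 + w1 ^ 2 + w2 ^ 2) ≤
      (N 0 0 + N 1 1 + N 2 2) * (w0 ^ 2 + w1 ^ 2 + w2 ^ 2) -
        (N 0 0 * w0 ^ 2 + N 1 1 * w1 ^ 2 + N 2 2 * w2 ^ 2 + (N 0 1 + N 1 0) * (w0 * w1) +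
          (N 0 2 + N 2 0) * (w0 * w2) + (N 1 2 + N 2 1) * (w1 * w2)) := by
  have h00 := abs_le.mp (h 0 0)
  have h11 := abs_le.mp (h 1 1)
  have h22 := abs_le.mp (h 2 2)
  have h01 := abs_le.mp (h 0 1)
  have h10 := abs_le.mp (h 1 0)
  have h02 := abs_le.mp (h 0 2)
  have h20 := abs_le.mp (h 2 0)
  have h12 := abs_le.mp (h 1 2)
  have h21 := abs_le.mp (h 2 1)
  simp at h00 h11 h22 h01 h10 h02 h20 h12 h21
  have hmu : 0 ≤ mu := (abs_nonneg _).trans (h 0 0)
  have key : ∀ m a b : ℝ, -mu ≤ m → m ≤ mu → m * (a * b) ≤ mu * ((a ^ 2 + b ^ 2) / 2) := by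
    intro m a b h1 h2
    rcases le_total 0 (a * b) with hab | hab
    · nlinarith [sq_nonneg (a - b)]
    · nlinarith [sq_nonneg (a + b)]
  have k01 := key (N 0 1) w0 w1 h01.1 h01.2
  have k10 := key (N 1 0) w0 w1 h10.1 h10.2
  have k02 := key (N 0 2) w0 w2 h02.1 h02.2
  have k20 := key (N 2 0) w0 w2 h20.1 h20.2
  have k12 := key (N 1 2) w1 w2 h12.1 h12.2
  have k21 := key (N 2 1) w1 w2 h21.1 h21.2
  have s0 := sq_nonneg w0
  have s1 := sq_nonneg w1
  have s2 := sq_nonneg w2
  nlinarith [mul_nonneg (sub_nonneg.mpr h00.1) s1, mul_nonneg (sub_nonneg.mpr h00.1) s2,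
    mul_nonneg (sub_nonneg.mpr h11.1) s0, mul_nonneg (sub_nonneg.mpr h11.1) s2,
    mul_nonneg (sub_nonneg.mpr h22.1) s0, mul_nonneg (sub_nonneg.mpr h22.1) s1,
    mul_nonneg hmu s0, mul_nonneg hmu s1, mul_nonneg hmu s2]

theorem ric : RIC := by
  intro g G hg _ x hx A N lam mu hA hN _ hmu b hb v
  -- the orthogonal matrix
  have hO : ∀ a c, g x (b 0) (A a) * g x (b 0) (A c) + g x (b 1) (A a) * g x (b 1) (A c)
      + g x (b 2) (A a) * g x (b 2) (A c) = if a = c then 1 else 0 := by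
    intro a c
    have e := expand hb (A a)
    have e2 : g x (A a) (A c) = g x (g x (A a) (b 0) • b 0 + g x (A a) (b 1) • b 1 +
        g x (A a) (b 2) • b 2) (A c) := by rw [← e]
    rw [hA a c] at e2
    simp only [map_add, map_smul, ContinuousLinearMap.add_apply, ContinuousLinearMap.smul_apply,
      smul_eq_mul] at e2
    rw [hg.symm x (A a) (b 0), hg.symm x (A a) (b 1), hg.symm x (A a) (b 2)] at e2
    exact e2.symm
  -- first reduction
  have hB : ∀ i, g x (Rm G x (b i) v (b i)) v =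
      ∑ a, ∑ c, g x (b i) (A a) * g x (b i) (A c) * g x (Rm G x (A a) v (A c)) v := by
    intro i
    have e := expand hA (b i)
    have e2 : g x (Rm G x (b i) v (b i)) v = g x (Rm G x (g x (b i) (A 0) • A 0 +
        g x (b i) (A 1) • A 1 + g x (b i) (A 2) • A 2) v (g x (b i) (A 0) • A 0 +
        g x (b i) (A 1) • A 1 + g x (b i) (A 2) • A 2)) v := by rw [← e]
    rw [e2]
    simp only [Rm_add1, Rm_smul1, Rm_add3, Rm_smul3, map_add, map_smul,
      ContinuousLinearMap.add_apply, ContinuousLinearMap.smul_apply, smul_eq_mul,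
      Fin.sum_univ_three, smul_add]
    ring
  have hS : ∑ i, g x (Rm G x (b i) v (b i)) v = ∑ a, g x (Rm G x (A a) v (A a)) v := by
    simp only [hB, Fin.sum_univ_three]
    have h00 := hO 0 0
    have h01 := hO 0 1
    have h02 := hO 0 2
    have h10 := hO 1 0
    have h11 := hO 1 1
    have h12 := hO 1 2
    have h20 := hO 2 0
    have h21 := hO 2 1
    have h22 := hO 2 2
    simp at h00 h01 h02 h10 h11 h12 h20 h21 h22
    linear_combination g x (Rm G x (A 0) v (A 0)) v * h00 + g x (Rm G x (A 0) v (A 1)) v * h01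
      + g x (Rm G x (A 0) v (A 2)) v * h02 + g x (Rm G x (A 1) v (A 0)) v * h10
      + g x (Rm G x (A 1) v (A 1)) v * h11 + g x (Rm G x (A 1) v (A 2)) v * h12
      + g x (Rm G x (A 2) v (A 0)) v * h20 + g x (Rm G x (A 2) v (A 1)) v * h21
      + g x (Rm G x (A 2) v (A 2)) v * h22
  have hC : ∀ a, g x (Rm G x (A a) v (A a)) v =
      ∑ d, ∑ f, g x v (A d) * g x v (A f) * g x (Rm G x (A a) (A d) (A a)) (A f) := by
    intro a
    have e := expand hA v
    have e2 : g x (Rm G x (A a) v (A a)) v = g x (Rm G x (A a) (g x v (A 0) • A 0 +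
        g x v (A 1) • A 1 + g x v (A 2) • A 2) (A a)) (g x v (A 0) • A 0 +
        g x v (A 1) • A 1 + g x v (A 2) • A 2) := by rw [← e]
    rw [e2]
    simp only [Rm_add2, Rm_smul2, map_add, map_smul,
      ContinuousLinearMap.add_apply, ContinuousLinearMap.smul_apply, smul_eq_mul,
      Fin.sum_univ_three, smul_add]
    ring
  have hv : g x v v = g x v (A 0) ^ 2 + g x v (A 1) ^ 2 + g x v (A 2) ^ 2 := by
    have e := expand hA v
    have e2 : g x v v = g x v (g x v (A 0) • A 0 +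
        g x v (A 1) • A 1 + g x v (A 2) • A 2) := by rw [← e]
    rw [e2]
    simp only [map_add, map_smul, smul_eq_mul]
    ring
  rw [hS]
  simp only [hC]
  rw [hv]
  have hal := alg N lam mu (g x v (A 0)) (g x v (A 1)) (g x v (A 2)) hmu
  refine hal.trans (le_of_eq ?_)
  have hN' : ∀ a d f, g x (Rm G x (A a) (A d) (A a)) (A f) =
      - ∑ l, ∑ k, eps a d l * N l k * eps k a f := fun a d f => hN a d a f
  simp only [hN', Fin.sum_univ_three]
  simp only [eps, Fin.val_zero, Fin.val_one, Fin.val_two, Nat.cast_zero, Nat.cast_one,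
    Nat.cast_ofNat]
  ring

end Pool.Agent.Helper40.RF
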