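import Pool.Agent.Helper64.RF.GoalsM
import Pool.Agent.Helper40.RF.RIC

/-!
Packet FDG of project RF (MP_c98eff_gt).
-/

open Quaternion

namespace Pool.Agent.Helper40.RF

open Pool.Agent.Helper64.RF
open Pool.Agent.Helper47.RF (MF IsMetric Sm E ip eps gdist gvol PinchedAt qe)

theorem ss_of_sm {s : ℍ[ℝ] → ℝ} (hs : Sm s) : SS s := by
  refine ⟨fun r hr x => hs.hom r x hr, fun x hx => ?_⟩
  have hopen : IsOpen ({0}ᶜ : Set ℍ[ℝ]) := isOpen_compl_singleton
  exact hs.cd.contDiffAt (hopen.mem_nhds hx)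

theorem iot_eq (v : W) : iot v = v 0 • qe 0 + v 1 • qe 1 + v 2 • qe 2 := by
  have h0 : qe 0 = iot ![1, 0, 0] := rfl
  have h1 : qe 1 = iot ![0, 1, 0] := rfl
  have h2 : qe 2 = iot ![0, 0, 1] := rfl
  rw [h0, h1, h2, ← iot_smul, ← iot_smul, ← iot_smul, ← iot_add, ← iot_add]
  congr 1
  funext i
  fin_cases i <;> simp

theorem Ed_eq (v : W) (s : ℍ[ℝ] → ℝ) (x : ℍ[ℝ]) : Ed v s x = ∑ i, v i * E i s x := by
  unfold Ed E
  rw [iot_eq, Fin.sum_univ_three]
  simp only [mul_add, mul_smul_comm, map_add, map_smul, smul_eq_mul]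

theorem fdg (lnk : LNK) (cop : COP) (ric : RIC) (diam : DIAM) (lkd : LKD) : FDG := by
  intro gm hgm s Q η p hs hQ hη0 hη1 hp hsp hfr
  obtain ⟨hmet, hlc, -, -⟩ := lnk gm hgm
  have hsq : 0 < Real.sqrt Q := Real.sqrt_pos.mpr hQ
  have hK0 : 0 ≤ η * (Q * Real.sqrt Q) := by positivity
  have hg0 : ∀ x : ℍ[ℝ], x ≠ 0 → ∀ v : W, 0 ≤ toG gm x v v := by
    intro x hx v
    by_cases hv : v = 0
    · rw [hv]; simp
    · exact (hmet.pos x hx v hv).le
  have hEd : ∀ x : ℍ[ℝ], x ≠ 0 → ∀ v, |Ed v s x| ≤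
      η * (Q * Real.sqrt Q) * Real.sqrt (toG gm x v v) := by
    intro x hx v
    obtain ⟨A, N, hF, hgrad, -⟩ := hfr x hx
    obtain ⟨horth, -⟩ := cop gm hgm x hx A N hF
    have e := expand horth v
    have hEv : Ed v s x = toG gm x v (A 0) * Ed (A 0) s x + toG gm x v (A 1) * Ed (A 1) s x
        + toG gm x v (A 2) * Ed (A 2) s x := by
      have e2 : Ed v s x = Ed (toG gm x v (A 0) • A 0 + toG gm x v (A 1) • A 1 +
        toG gm x v (A 2) • A 2) s x := by rw [← e]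
      rw [e2]
      simp only [Ed_add, Ed_smul, smul_eq_mul]
    have hv : toG gm x v v = toG gm x v (A 0) ^ 2 + toG gm x v (A 1) ^ 2
        + toG gm x v (A 2) ^ 2 := by
      have e2 : toG gm x v v = toG gm x v (toG gm x v (A 0) • A 0 +
          toG gm x v (A 1) • A 1 + toG gm x v (A 2) • A 2) := by rw [← e]
      rw [e2]
      simp only [map_add, map_smul, smul_eq_mul]
      ring
    have hgr : Ed (A 0) s x ^ 2 + Ed (A 1) s x ^ 2 + Ed (A 2) s x ^ 2 ≤
        (η * (Q * Real.sqrt Q)) ^ 2 := by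
      rw [Fin.sum_univ_three] at hgrad
      rw [Ed_eq, Ed_eq, Ed_eq]
      exact hgrad
    apply Real.abs_le_sqrt _ |>.trans
    swap
    · exact (η * (Q * Real.sqrt Q)) ^ 2 * toG gm x v v
    · rw [Real.sqrt_mul (by positivity), Real.sqrt_sq hK0]
    · have hcs : (toG gm x v (A 0) * Ed (A 0) s x + toG gm x v (A 1) * Ed (A 1) s x
          + toG gm x v (A 2) * Ed (A 2) s x) ^ 2 ≤
          (toG gm x v (A 0) ^ 2 + toG gm x v (A 1) ^ 2 + toG gm x v (A 2) ^ 2) *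
            (Ed (A 0) s x ^ 2 + Ed (A 1) s x ^ 2 + Ed (A 2) s x ^ 2) := by
        generalize toG gm x v (A 0) = a0
        generalize toG gm x v (A 1) = a1
        generalize toG gm x v (A 2) = a2
        generalize Ed (A 0) s x = b0
        generalize Ed (A 1) s x = b1
        generalize Ed (A 2) s x = b2
        nlinarith [sq_nonneg (a0 * b1 - a1 * b0), sq_nonneg (a0 * b2 - a2 * b0),
          sq_nonneg (a1 * b2 - a2 * b1)]
      rw [hEv]
      refine hcs.trans ?_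
      rw [← hv, mul_comm]
      exact mul_le_mul_of_nonneg_right hgr (hg0 x hx v)
  have hRic : ∀ x : ℍ[ℝ], x ≠ 0 → Q / 2 ≤ s x → RicGe (toG gm) (toC gm) x (Q / 4) := by
    intro x hx hsx b hb v
    obtain ⟨A, N, hF, -, hN⟩ := hfr x hx
    obtain ⟨horth, hcurv⟩ := cop gm hgm x hx A N hF
    have h := ric (toG gm) (toC gm) hmet hlc x hx A N (s x / 3) (Q / 72) horth hcurv hF.symm hN b
      hb v
    refine le_trans ?_ h
    apply mul_le_mul_of_nonneg_right _ (hg0 x hx v)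
    linarith
  obtain ⟨h1, h2⟩ := diam (toG gm) (toC gm) hmet hlc s Q η p (ss_of_sm hs) hQ hη0 hη1 hp hsp hEd
    hRic
  refine ⟨h1, fun x y hx hy => ?_⟩
  have hx0 : x ≠ 0 := by
    rintro rfl
    simp at hx
  have hy0 : y ≠ 0 := by
    rintro rfl
    simp at hy
  obtain ⟨c, hC1, hc0, hc1, hEn⟩ := h2 x y hx0 hy0
  have h3 := lkd gm hgm c hC1 (by rw [hc0]; exact hx) (by rw [hc1]; exact hy)
  rw [hc0, hc1] at h3
  refine h3.trans ((Real.sqrt_le_sqrt hEn.le).trans (le_of_eq ?_))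
  rw [Real.sqrt_div' _ hQ.le]
  congr 1
  rw [show (121 : ℝ) = 11 ^ 2 by norm_num, Real.sqrt_sq (by norm_num)]

end Pool.Agent.Helper40.RF
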