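import Pool.Agent.Helper73.RF.GoalsF

/-!
Packet DET of project RF (MP_c98eff_gt).
-/

set_option autoImplicit false

open Finset Pool.Agent.Helper47.RF Pool.Agent.Helper73.RF

namespace Pool.Agent.Helper40.RF

theorem det_gOf (θ : MF) (x : HH) : (gOf θ x).det = (θ x).det ^ 2 := by
  unfold gOf
  rw [Matrix.det_mul, Matrix.det_transpose, sq]

theorem det (hF : FrnStmt) : DetStmt := by
  intro I A θ hfl t ht x hx
  have hfrm : Frm (A t) (θ t) :=
    ⟨hfl.inv t ht, fun a i => (hfl.flA a i).fam.sm t ht, fun i a => (hfl.flt i a).fam.sm t ht⟩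
  obtain ⟨-, -, -, -, -, hRic, -, -⟩ := hF (A t) (θ t) hfrm
  have hinv := hfl.inv t ht x
  have hdet : (θ t x).det ≠ 0 := by
    intro h0
    have h1 := congrArg Matrix.det hinv
    rw [Matrix.det_mul, h0, mul_zero, Matrix.det_one] at h1
    exact zero_ne_one h1
  have hent : ∀ i a, HasDerivWithinAt (fun r => θ r x i a)
      (-∑ b, θ t x i b * RicF (A t) (θ t) x b a) I t := by
    intro i a
    exact (hfl.flt i a).der [] x hx t ht
  have hD : HasDerivWithinAt (fun r => (θ r x).det) (-2 * sC (A t) (θ t) x * (θ t x).det) I t := by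
    have h00 := hent 0 0
    have h01 := hent 0 1
    have h02 := hent 0 2
    have h10 := hent 1 0
    have h11 := hent 1 1
    have h12 := hent 1 2
    have h20 := hent 2 0
    have h21 := hent 2 1
    have h22 := hent 2 2
    have hsum := (((((h00.mul h11).mul h22).sub ((h00.mul h12).mul h21)).sub
      ((h01.mul h10).mul h22)).add ((h01.mul h12).mul h20)).add ((h02.mul h10).mul h21) |>.sub
      ((h02.mul h11).mul h20)
    have hfun : (fun r => (θ r x).det) = fun r =>
        θ r x 0 0 * θ r x 1 1 * θ r x 2 2 - θ r x 0 0 * θ r x 1 2 * θ r x 2 1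
          - θ r x 0 1 * θ r x 1 0 * θ r x 2 2 + θ r x 0 1 * θ r x 1 2 * θ r x 2 0
          + θ r x 0 2 * θ r x 1 0 * θ r x 2 1 - θ r x 0 2 * θ r x 1 1 * θ r x 2 0 := by
      funext r
      rw [Matrix.det_fin_three]
    rw [hfun]
    refine hsum.congr_deriv ?_
    have r00 := hRic x hx 0 0
    have r01 := hRic x hx 0 1
    have r02 := hRic x hx 0 2
    have r10 := hRic x hx 1 0
    have r11 := hRic x hx 1 1
    have r12 := hRic x hx 1 2
    have r20 := hRic x hx 2 0
    have r21 := hRic x hx 2 1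
    have r22 := hRic x hx 2 2
    have hs : sC (A t) (θ t) x = Nc (A t) (θ t) x 0 0 + Nc (A t) (θ t) x 1 1
        + Nc (A t) (θ t) x 2 2 := by
      unfold sC
      rw [Fin.sum_univ_three]
    simp only [Fin.isValue, if_true, if_false, reduceIte, Fin.reduceEq] at r00 r01 r02 r10 r11 r12 r20 r21 r22
    have htr : RicF (A t) (θ t) x 0 0 + RicF (A t) (θ t) x 1 1 + RicF (A t) (θ t) x 2 2
        = 2 * sC (A t) (θ t) x := by
      rw [r00, r11, r22]
      linarith
    simp only [Fin.sum_univ_three]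
    rw [Matrix.det_fin_three]
    simp only [Pi.mul_apply]
    linear_combination (-(θ t x 0 0 * θ t x 1 1 * θ t x 2 2 - θ t x 0 0 * θ t x 1 2 * θ t x 2 1
          - θ t x 0 1 * θ t x 1 0 * θ t x 2 2 + θ t x 0 1 * θ t x 1 2 * θ t x 2 0
          + θ t x 0 2 * θ t x 1 0 * θ t x 2 1 - θ t x 0 2 * θ t x 1 1 * θ t x 2 0)) * htr
  have hpos : 0 < (θ t x).det ^ 2 := by positivity
  have hsq : HasDerivWithinAt (fun r => (θ r x).det ^ 2)
      (2 * (θ t x).det * (-2 * sC (A t) (θ t) x * (θ t x).det)) I t := by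
    have := hD.pow 2
    refine this.congr_deriv ?_
    simp
  constructor
  · rw [det_gOf]
    exact Real.sqrt_pos.mpr hpos
  · simp only [det_gOf]
    refine (hsq.sqrt hpos.ne').congr_deriv ?_
    have h1 : Real.sqrt ((θ t x).det ^ 2) ≠ 0 := (Real.sqrt_pos.mpr hpos).ne'
    have h2 : Real.sqrt ((θ t x).det ^ 2) * Real.sqrt ((θ t x).det ^ 2) = (θ t x).det ^ 2 :=
      Real.mul_self_sqrt hpos.le
    rw [div_eq_iff (by positivity)]
    linear_combination (4 * sC (A t) (θ t) x) * h2

end Pool.Agent.Helper40.RF
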